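import Mathlib

set_option autoImplicit false

/-!
# Support of the exponents of a polynomial written as a product of `(1 - X ^ d) ^ e d`
-/

namespace Pool.Agent.W2helper88.CY

open Polynomial Finset

/-- polynomials whose coefficients up to degree `d` vanish outside `G` -/
def supp (G : AddSubmonoid ℕ) (d : ℕ) : Submonoid ℤ[X] where
  carrier := {f | ∀ j, j ≤ d → j ∉ G → f.coeff j = 0}
  mul_mem' := by
    intro f g hf hg j hj hjG
    rw [coeff_mul]
    apply Finset.sum_eq_zero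
    rintro ⟨a, b⟩ hab
    rw [Finset.HasAntidiagonal.mem_antidiagonal] at hab
    simp only at hab ⊢
    by_cases ha : a ∈ G
    · have hb : b ∉ G := fun hb => hjG (hab ▸ G.add_mem ha hb)
      rw [hg b (by omega) hb, mul_zero]
    · rw [hf a (by omega) ha, zero_mul]
  one_mem' := by
    intro j _ hjG
    rw [coeff_one, if_neg]
    rintro rfl
    exact hjG G.zero_mem

theorem mem_supp {G : AddSubmonoid ℕ} {d : ℕ} {f : ℤ[X]} :
    f ∈ supp G d ↔ ∀ j, j ≤ d → j ∉ G → f.coeff j = 0 := Iff.rfl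

/-- polynomials with constant coefficient `1` -/
def unit0 : Submonoid ℤ[X] where
  carrier := {f | f.coeff 0 = 1}
  mul_mem' := by
    intro f g hf hg
    show (f * g).coeff 0 = 1
    rw [mul_coeff_zero, show f.coeff 0 = 1 from hf, show g.coeff 0 = 1 from hg, mul_one]
  one_mem' := by
    show (1 : ℤ[X]).coeff 0 = 1
    simp

theorem mem_unit0 {f : ℤ[X]} : f ∈ unit0 ↔ f.coeff 0 = 1 := Iff.rfl

/-- `f = 1 + v X ^ d + …` -/
def Lead (d : ℕ) (f : ℤ[X]) (v : ℤ) : Prop := ∃ u : ℤ[X], f = 1 + X ^ d * u ∧ u.coeff 0 = v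

theorem Lead.one (d : ℕ) : Lead d 1 0 := ⟨0, by simp, by simp⟩

theorem Lead.mul {d : ℕ} (hd : 0 < d) {f g : ℤ[X]} {v w : ℤ} (hf : Lead d f v)
    (hg : Lead d g w) : Lead d (f * g) (v + w) := by
  obtain ⟨u, rfl, hu⟩ := hf
  obtain ⟨t, rfl, ht⟩ := hg
  refine ⟨u + t + X ^ d * (u * t), by ring, ?_⟩
  have h0 : (X ^ d * (u * t) : ℤ[X]).coeff 0 = 0 := by
    rw [mul_coeff_zero, coeff_X_pow, if_neg (by omega), zero_mul]
  rw [coeff_add, coeff_add, h0, hu, ht, add_zero]

theorem Lead.pow {d : ℕ} (hd : 0 < d) {f : ℤ[X]} {v : ℤ} (hf : Lead d f v) (k : ℕ) :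
    Lead d (f ^ k) (k * v) := by
  induction k with
  | zero => simpa using Lead.one d
  | succ k ih =>
    have := Lead.mul hd ih hf
    rw [pow_succ]
    have e : ((k + 1 : ℕ) : ℤ) * v = k * v + v := by push_cast; ring
    rw [e]
    exact this

theorem Lead.prod {d : ℕ} (hd : 0 < d) (s : Finset ℕ) (F : ℕ → ℤ[X]) (v : ℕ → ℤ)
    (h : ∀ j ∈ s, Lead d (F j) (v j)) : Lead d (∏ j ∈ s, F j) (∑ j ∈ s, v j) := by
  classical
  induction s using Finset.induction_on with
  | empty => simpa using Lead.one d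
  | insert a s ha ih =>
    rw [Finset.prod_insert ha, Finset.sum_insert ha]
    exact Lead.mul hd (h a (Finset.mem_insert_self a s))
      (ih fun j hj => h j (Finset.mem_insert_of_mem hj))

theorem lead_factor {d j : ℕ} (hdj : d ≤ j) :
    Lead d (1 - X ^ j) (if j = d then -1 else 0) := by
  refine ⟨-X ^ (j - d), ?_, ?_⟩
  · rw [mul_neg, ← pow_add, Nat.add_sub_cancel' hdj, sub_eq_add_neg]
  · rw [coeff_neg, coeff_X_pow]
    by_cases h : j = d
    · subst h; simp
    · rw [if_neg (by omega), if_neg h, neg_zero]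

theorem Lead.coeff {d : ℕ} {f : ℤ[X]} {v : ℤ} (hf : Lead d f v) (g : ℤ[X]) :
    (g * f).coeff d = g.coeff d + g.coeff 0 * v := by
  obtain ⟨u, rfl, hu⟩ := hf
  have e : g * (1 + X ^ d * u) = g + X ^ d * (g * u) := by ring
  have e2 : (X ^ d * (g * u) : ℤ[X]).coeff d = (g * u).coeff 0 := by
    have := coeff_X_pow_mul (g * u) d 0
    rwa [zero_add] at this
  rw [e, coeff_add, e2, mul_coeff_zero, hu]

/-- the tail of the product -/
theorem lead_tail {d N : ℕ} (hd : 0 < d) (hdN : d < N) (b : ℕ → ℕ) :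
    Lead d (∏ j ∈ Ico d N, (1 - X ^ j : ℤ[X]) ^ b j) (-(b d : ℤ)) := by
  have h := Lead.prod hd (Ico d N) (fun j => (1 - X ^ j : ℤ[X]) ^ b j)
    (fun j => (b j : ℤ) * (if j = d then -1 else 0))
    (fun j hj => Lead.pow hd (lead_factor (Finset.mem_Ico.mp hj).1) (b j))
  have e : ∑ j ∈ Ico d N, (b j : ℤ) * (if j = d then -1 else 0) = -(b d : ℤ) := by
    rw [Finset.sum_eq_single d]
    · simp
    · intro j _ hj
      rw [if_neg hj, mul_zero]
    · intro h
      exact absurd (Finset.mem_Ico.mpr ⟨le_refl d, hdN⟩) h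
  rw [e] at h
  exact h

theorem exps_support (K : ℤ[X]) (N : ℕ) (e : ℕ → ℤ) (he0 : e 0 = 0) (hK0 : K.coeff 0 = 1)
    (hprod : K * ∏ d ∈ range N, (1 - X ^ d) ^ (-e d).toNat =
      ∏ d ∈ range N, (1 - X ^ d) ^ (e d).toNat) (G : AddSubmonoid ℕ)
    (hsup : ∀ d, d < N → d ∉ G → K.coeff d = 0) : ∀ d, d < N → e d ≠ 0 → d ∈ G := by
  intro d
  induction d using Nat.strong_induction_on with
  | _ d ih =>
    intro hdN hed
    by_contra hdG
    apply hed
    have hd : 0 < d := by
      rcases Nat.eq_zero_or_pos d with h | h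
      · subst h; exact absurd G.zero_mem hdG
      · exact h
    -- heads of the two products
    have hsplit : ∀ b : ℕ → ℕ, ∏ j ∈ range N, (1 - X ^ j : ℤ[X]) ^ b j =
        (∏ j ∈ range d, (1 - X ^ j : ℤ[X]) ^ b j) * ∏ j ∈ Ico d N, (1 - X ^ j : ℤ[X]) ^ b j := by
      intro b
      rw [Finset.prod_range_mul_prod_Ico _ hdN.le]
    have hone : ∀ b : ℕ → ℕ, b 0 = 0 →
        (∏ j ∈ range d, (1 - X ^ j : ℤ[X]) ^ b j).coeff 0 = 1 := by
      intro b hb
      rw [← mem_unit0]
      apply Submonoid.prod_mem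
      intro j _
      rcases Nat.eq_zero_or_pos j with h | h
      · subst h
        rw [hb, pow_zero]
        exact Submonoid.one_mem _
      · apply Submonoid.pow_mem
        rw [mem_unit0, coeff_sub, coeff_one_zero, coeff_X_pow, if_neg (by omega), sub_zero]
    have hsupp : ∀ b : ℕ → ℕ, (∀ j, e j = 0 → b j = 0) →
        (∏ j ∈ range d, (1 - X ^ j : ℤ[X]) ^ b j) ∈ supp G d := by
      intro b hb
      apply Submonoid.prod_mem
      intro j hj
      have hjd := Finset.mem_range.mp hj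
      by_cases hej : e j = 0
      · rw [hb j hej, pow_zero]
        exact Submonoid.one_mem _
      · have hjG := ih j hjd (by omega) hej
        apply Submonoid.pow_mem
        intro i _ hiG
        rw [coeff_sub, coeff_one, coeff_X_pow, if_neg, if_neg, sub_zero]
        · rintro rfl; exact hiG hjG
        · rintro rfl; exact hiG G.zero_mem
    have hm0 : (fun j => (-e j).toNat) 0 = 0 := by simp [he0]
    have hp0 : (fun j => (e j).toNat) 0 = 0 := by simp [he0]
    have hmz : ∀ j, e j = 0 → (fun j => (-e j).toNat) j = 0 := by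
      intro j hj; simp [hj]
    have hpz : ∀ j, e j = 0 → (fun j => (e j).toNat) j = 0 := by
      intro j hj; simp [hj]
    have h1 := hsplit (fun j => (-e j).toNat)
    have h2 := hsplit (fun j => (e j).toNat)
    have hKs : K ∈ supp G d := fun j hj hjG => hsup j (by omega) hjG
    have c1 := (lead_tail hd hdN (fun j => (-e j).toNat)).coeff
      (K * ∏ j ∈ range d, (1 - X ^ j : ℤ[X]) ^ (-e j).toNat)
    have c2 := (lead_tail hd hdN (fun j => (e j).toNat)).coeff
      (∏ j ∈ range d, (1 - X ^ j : ℤ[X]) ^ (e j).toNat)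
    have hA : (K * ∏ j ∈ range d, (1 - X ^ j : ℤ[X]) ^ (-e j).toNat).coeff d = 0 :=
      (Submonoid.mul_mem _ hKs (hsupp (fun j => (-e j).toNat) hmz)) d le_rfl hdG
    have hB : (∏ j ∈ range d, (1 - X ^ j : ℤ[X]) ^ (e j).toNat).coeff d = 0 :=
      (hsupp (fun j => (e j).toNat) hpz) d le_rfl hdG
    have hA0 : (K * ∏ j ∈ range d, (1 - X ^ j : ℤ[X]) ^ (-e j).toNat).coeff 0 = 1 := by
      rw [mul_coeff_zero, hK0, one_mul]
      exact hone (fun j => (-e j).toNat) hm0
    have hB0 : (∏ j ∈ range d, (1 - X ^ j : ℤ[X]) ^ (e j).toNat).coeff 0 = 1 :=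
      hone (fun j => (e j).toNat) hp0
    rw [hA, hA0] at c1
    rw [hB, hB0] at c2
    have h3 : (K * ∏ j ∈ range d, (1 - X ^ j : ℤ[X]) ^ (-e j).toNat) *
        ∏ j ∈ Ico d N, (1 - X ^ j : ℤ[X]) ^ (-e j).toNat =
        (∏ j ∈ range d, (1 - X ^ j : ℤ[X]) ^ (e j).toNat) *
        ∏ j ∈ Ico d N, (1 - X ^ j : ℤ[X]) ^ (e j).toNat := by
      rw [mul_assoc, ← h1, ← h2]
      exact hprod
    rw [h3, c2] at c1
    have h4 : ((e d).toNat : ℤ) = ((-e d).toNat : ℤ) := by linarith
    omega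

end Pool.Agent.W2helper88.CY
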